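import Pool.Agent.H34.GU.Targets1

/-!
# The fourth moment of the L-functions of all cuspidal representations of GL(m) over the rationals
which are spherical at infinity, of a given conductor, and of conductor at most X, at Lindelöf strength,
for every m (MP_52e316_nt)

A form of level `N` is a bounded function on `GL_m(ℤ) \ (GL_m(ℝ) × {primitive vectors modulo N})`
invariant under the orthogonal group and the positive scalars, an eigenfunction of ALL Hecke operators
and of the test functions at infinity, cuspidal, and primitive at `N` (its Fourier coefficients at the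
vectors which are not primitive vanish). The functions on `GL_m(ℤ) \ (GL_m(ℝ) × {primitive vectors})` are
the functions on `GL_m(ℚ) \ GL_m(𝔸)` invariant under `{k : k e_m = e_m mod N}`, which is conjugate (by
`g ↦ g^(-T)`) to the mirahoric subgroup of the theory of newforms, so every cuspidal representation `π` of
conductor `N`, spherical at infinity, has exactly one such form up to scalars, its newform, and
`L(s, F) = L(s, π)`. The theorem bounds the fourth moment of the L-functions of all forms of level `N`,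
at points of the critical line which may depend on the form, by `N ^ (m + ε)` (their number, for bounded
parameters, is about `N ^ m`, the convexity bound is `N ^ (1 / 4)`), so the fourth moment over all levels
`N ≤ X` by `X ^ (m + 1 + ε)`.

Idea of the proof. The fourth moment of the eigenvalues of the operators with the determinant decoupled
is at most the Hilbert-Schmidt norm of the square of the operator on the part of the fundamental domain
which carries half of the mass of every form. This is a count of pairs of a sublattice `{c : c·x = 0}` of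
index `N` and integer matrices, weighted by the squares of the numbers of intermediate lattices, and an
inequality for the shapes of three lattices shows that its loss in the cusp is compensated by the Haar
measure. The functional equation comes from Poisson summation over the integer matrices `α` with
`α x = y` and a correspondence of Fricke type `(h, v) ↦ (H_v h, x_v)`, which does not increase the measure;
only the norm of the form is needed on the dual side.
-/

set_option autoImplicit false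

namespace Pool.Agent.H68.GU.ResDraft

open MeasureTheory

/-- real `m × m` matrices -/
abbrev Mat (m : ℕ) := Matrix (Fin m) (Fin m) ℝ

/-- the same space, with Lebesgue measure and the maximum norm -/
abbrev V (m : ℕ) := Fin m → Fin m → ℝ

/-- integer `m × m` matrices -/
abbrev ZM (m : ℕ) := Matrix (Fin m) (Fin m) ℤ

/-- vectors modulo `N` -/
abbrev VecMod (m N : ℕ) := Fin m → ZMod N

/-- the matrix of a point of `V m` -/
abbrev mt {m : ℕ} (z : V m) : Mat m := Matrix.of z

/-- the maximum of the absolute values of the entries -/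
noncomputable def sz {m : ℕ} (z : Mat m) : ℝ := ‖((fun i j => z i j) : V m)‖

/-- the integer matrix `α` as a real matrix -/
noncomputable def toReal {m : ℕ} (α : ZM m) : Mat m := α.map (fun n : ℤ => (n : ℝ))

/-- the product of the integer matrix `α` and the column vector `x` modulo `N` -/
def act {m : ℕ} (N : ℕ) (α : ZM m) (x : VecMod m N) : VecMod m N :=
  (α.map (fun n : ℤ => (n : ZMod N))).mulVec x

/-- the scalar product modulo `N` -/
def dot {m N : ℕ} (v y : VecMod m N) : ZMod N := ∑ i, v i * y i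

/-- primitive vectors modulo `N` -/
def IsPrimitive {m N : ℕ} (x : VecMod m N) : Prop := ∃ u : VecMod m N, dot u x = 1

/-- `|det z| ^ (1 / m)` -/
noncomputable def aN {m : ℕ} (z : Mat m) : ℝ := |z.det| ^ (1 / (m : ℝ))

/-- the Haar measure `|det z| ^ (-m) dz` of `GL_m(ℝ)` -/
noncomputable def hm (m : ℕ) : Measure (V m) :=
  (volume : Measure (V m)).withDensity (fun z => ENNReal.ofReal ((|(mt z).det| ^ m)⁻¹))

/-- the leading principal minors of `zᵀ z` -/
noncomputable def mnr {m : ℕ} (z : Mat m) (j : ℕ) : ℝ :=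
  if h : j ≤ m then ((z.transpose * z).submatrix (Fin.castLE h) (Fin.castLE h)).det else 0

/-- the power function `∏_j a_j ^ (-μ_j + (2j - m - 1) / 2)` of `z = k a`, `k` orthogonal, `a` upper
triangular with positive diagonal `a_1, …, a_m`: `a_1² ⋯ a_j²` is the minor `mnr z j`. With this
normalisation the integral of `exp (-π ∑ z_ij²) |det z| ^ (s + (m - 1) / 2)` times the power function
is `∏_j Γ_ℝ(s - μ_j)` up to a constant. -/
noncomputable def pw {m : ℕ} (mu : Fin m → ℂ) (z : Mat m) : ℂ :=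
  ∏ j : Fin m, ((mnr z ((j : ℕ) + 1) / mnr z (j : ℕ) : ℝ) : ℂ) ^
    ((-(mu j) + (2 * ((j : ℕ) + 1 : ℂ) - m - 1) / 2) / 2)

/-- `T n` is a set of representatives of the classes `GL_m(ℤ) α` of the integer matrices `α` with
`|det α| = n` -/
structure IsReps (m : ℕ) (T : ℕ → Finset (ZM m)) : Prop where
  mem : ∀ n : ℕ, 1 ≤ n → ∀ α ∈ T n, α.det.natAbs = n
  uniq : ∀ n : ℕ, 1 ≤ n → ∀ β : ZM m, β.det.natAbs = n →
    ∃! α, α ∈ T n ∧ ∃ γ : ZM m, IsUnit γ ∧ β = γ * α

/-- `D` is a fundamental domain of `GL_m(ℤ)` (acting from the left) on the shell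
`1 ≤ |det z| ^ (1 / m) < e` -/
structure IsDomain (m : ℕ) (D : Set (V m)) : Prop where
  meas : MeasurableSet D
  shell : ∀ z ∈ D, 1 ≤ aN (mt z) ∧ aN (mt z) < Real.exp 1
  fund : ∀ z : V m, 1 ≤ aN (mt z) → aN (mt z) < Real.exp 1 →
    ∃! γ : ZM m, IsUnit γ ∧ ((fun i j => (toReal γ * mt z) i j) : V m) ∈ D

/-- test functions: continuous, compactly supported in `GL_m(ℝ)`, bi-invariant under the orthogonal
group -/
structure IsTest (m : ℕ) (k : Mat m → ℂ) : Prop where
  cont : Continuous k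
  supp : ∃ c : ℝ, 0 < c ∧ ∀ z, k z ≠ 0 → sz z ≤ c ∧ c⁻¹ ≤ |z.det|
  left : ∀ u : Mat m, u * u.transpose = 1 → ∀ z, k (u * z) = k z
  right : ∀ u : Mat m, u * u.transpose = 1 → ∀ z, k (z * u) = k z

/-- the additive character `a ↦ e(a / N)` of `ℤ / N` -/
noncomputable def chr (N : ℕ) (a : ZMod N) : ℂ :=
  Complex.exp (2 * Real.pi * Complex.I * (((a.val : ℝ) / N : ℝ) : ℂ))

/-- the block of the rows `≥ k` and the columns `< k` of `u` (rows and columns are numbered from `0`),
the other entries are `0` -/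
noncomputable def block {m : ℕ} (k : ℕ) (u : V m) : Mat m :=
  Matrix.of fun i j => if (j : ℕ) < k ∧ k ≤ (i : ℕ) then u i j else 0

/-- `F` is a form of conductor `N` with the Hecke eigenvalues `n ^ ((m - 1) / 2) λ(n)` and the parameters
`μ_j` at infinity: a bounded function on `GL_m(ℤ) \ (GL_m(ℝ) × {primitive vectors modulo N})`,
invariant under `ℝ_{>0}` and under the orthogonal group, an eigenfunction of all Hecke operators and of
the convolutions with test functions;
primitive at `N`: for every `g` the Fourier coefficients of `F g` at all vectors which are not primitive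
vanish (`F` comes from no smaller level);
cuspidal: for `0 < k < m` its integral over the unipotent group of the matrices
`(1, 0; N u, 1)`, `u` a `(m - k) × k` matrix modulo `1`, vanishes at all `g`, `x`. -/
structure IsForm (m N : ℕ) [NeZero N] (T : ℕ → Finset (ZM m)) (F : Mat m → VecMod m N → ℂ)
    (lam : ℕ → ℂ) (mu : Fin m → ℂ) : Prop where
  cont : ∀ x, ContinuousOn (fun g => F g x) {g | g.det ≠ 0}
  supp : ∀ g x, ¬ IsPrimitive x → F g x = 0
  auto : ∀ γ : ZM m, IsUnit γ → ∀ g x, g.det ≠ 0 → F (toReal γ * g) (act N γ x) = F g x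
  scal : ∀ r : ℝ, 0 < r → ∀ g x, g.det ≠ 0 → F (r • g) x = F g x
  orth : ∀ k : Mat m, k * k.transpose = 1 → ∀ g x, g.det ≠ 0 → F (g * k) x = F g x
  hecke : ∀ n : ℕ, 1 ≤ n → ∀ g x, g.det ≠ 0 →
    ∑ α ∈ T n, F (toReal α * g) (act N α x) = (n : ℂ) ^ (((m : ℂ) - 1) / 2) * lam n * F g x
  sum_mu : ∑ j, mu j = 0
  arch : ∀ k : Mat m → ℂ, IsTest m k → ∀ g x, g.det ≠ 0 →
    ∫ z, k (mt z) * F (g * (mt z)⁻¹) x ∂(hm m) = F g x * ∫ z, k (mt z) * pw mu (mt z) ∂(hm m)
  bdd : ∃ B : ℝ, ∀ g x, g.det ≠ 0 → ‖F g x‖ ≤ B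
  prim : ∀ v : VecMod m N, ¬ IsPrimitive v → ∀ g, g.det ≠ 0 → ∑ y, chr N (dot v y) * F g y = 0
  cusp : ∀ k : ℕ, 0 < k → k < m → ∀ g x, g.det ≠ 0 →
    ∫ u in Set.Icc (0 : V m) 1, F ((1 + (N : ℝ) • block k u) * g) x = 0

/-- the `F i` are orthonormal in `L²(D × {vectors modulo N})` -/
def IsOrthonormal {m N : ℕ} [NeZero N] {S : Type} [DecidableEq S] (D : Set (V m))
    (F : S → Mat m → VecMod m N → ℂ) : Prop :=
  (∀ i j x, IntegrableOn (fun z => F i (mt z) x * (starRingEnd ℂ) (F j (mt z) x)) D (hm m)) ∧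
  ∀ i j, ∑ x : VecMod m N, ∫ z in D, F i (mt z) x * (starRingEnd ℂ) (F j (mt z) x) ∂(hm m) =
    if i = j then 1 else 0

/-- `L` is the L-function `∑ λ(n) n ^ (-s)`, and it is entire -/
def IsLFunction (m : ℕ) (lam : ℕ → ℂ) (L : ℂ → ℂ) : Prop :=
  Differentiable ℂ L ∧ ∀ s : ℂ, (m : ℝ) + 2 < s.re →
    HasSum (fun n : ℕ => if 1 ≤ n then lam n * (n : ℂ) ^ (-s) else 0) (L s)

/-- the size `1 + |t| + ∑ |μ_j|` -/
noncomputable def size {m : ℕ} (t : ℝ) (mu : Fin m → ℂ) : ℝ := 1 + |t| + ∑ j, ‖mu j‖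

section conversions

variable {m N : ℕ}

lemma cv_reps {T : ℕ → Finset (ZM m)} (h : IsReps m T) : Pool.Agent.H34.GZ.RepsZ m T :=
  ⟨h.mem, h.uniq⟩

lemma cv_dom {D : Set (V m)} (h : IsDomain m D) : Pool.Agent.H34.GZ.DomZ m D :=
  ⟨h.meas, h.shell, h.fund⟩

lemma cv_tst {k : Mat m → ℂ} (h : Pool.Agent.H34.GM.Tst m k) : IsTest m k :=
  ⟨h.cont, h.supp, h.left, h.right⟩

lemma cv_form [NeZero N] {T : ℕ → Finset (ZM m)} {F : Mat m → VecMod m N → ℂ} {lam : ℕ → ℂ}
    {mu : Fin m → ℂ} (h : IsForm m N T F lam mu) : Pool.Agent.H34.GU.CuspU m N T F lam mu where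
  cont := h.cont
  supp := h.supp
  auto := h.auto
  scal := h.scal
  orth := h.orth
  hecke := h.hecke
  tr0 := h.sum_mu
  arch := fun k hk => h.arch k (cv_tst hk)
  bdd := h.bdd
  prim := h.prim
  cusp := h.cusp

lemma cv_l {lam : ℕ → ℂ} {L : ℂ → ℂ} (h : Pool.Agent.H34.GM.IsL m 1 lam L) :
    IsLFunction m lam L := by
  refine ⟨h.1, fun s hs => ?_⟩
  have h1 := h.2 s hs
  simpa using h1

/-- an orthonormal form is not identically zero -/
lemma cv_nz [NeZero N] {S : Type} [DecidableEq S] {D : Set (V m)} (hD : IsDomain m D)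
    (hm1 : 1 ≤ m) {F : S → Mat m → VecMod m N → ℂ} (h : IsOrthonormal D F) (i : S) :
    Pool.Agent.H34.GM.NZ (F i) := by
  by_contra hc
  have h0 : ∀ g : Mat m, g.det ≠ 0 → ∀ x, F i g x = 0 := by
    intro g hg x
    by_contra hx
    exact hc ⟨g, x, hg, hx⟩
  have h1 := h.2 i i
  rw [if_pos rfl] at h1
  have h2 : ∑ x : VecMod m N, ∫ z in D, F i (mt z) x * (starRingEnd ℂ) (F i (mt z) x) ∂(hm m) =
      0 := by
    refine Finset.sum_eq_zero (fun x _ => ?_)
    refine setIntegral_eq_zero_of_forall_eq_zero (fun z hz => ?_)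
    have hz1 := (hD.shell z hz).1
    have hdet : (mt z).det ≠ 0 := by
      intro h0
      unfold aN at hz1
      rw [h0, abs_zero, Real.zero_rpow (by positivity)] at hz1
      linarith
    rw [h0 _ hdet x, zero_mul]
  rw [h2] at h1
  exact zero_ne_one h1

end conversions

/-- Markov's inequality -/
lemma exc_card {S : Type} [Fintype S] (P : S → Prop) [DecidablePred P] (a : S → ℝ) (x : ℝ)
    (ha : ∀ i, 0 ≤ a i) (h : ∀ i, P i → x ≤ a i) :
    ((Finset.univ.filter P).card : ℝ) * x ≤ ∑ i, a i := by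
  rw [← nsmul_eq_mul, ← Finset.sum_const]
  calc ∑ _i ∈ Finset.univ.filter P, x ≤ ∑ i ∈ Finset.univ.filter P, a i :=
        Finset.sum_le_sum (fun i hi => h i (Finset.mem_filter.1 hi).2)
    _ ≤ _ := Finset.sum_le_sum_of_subset_of_nonneg (Finset.filter_subset _ _)
        (fun i _ _ => ha i)

/-- a large value -/
lemma exc_big {m : ℕ} (mu : Fin m → ℂ) (A Y η t l : ℝ) (hY : 0 < Y)
    (ht : size t mu ^ A * Y ^ η < l) : Y ^ (4 * η) ≤ (l * size t mu ^ (-A)) ^ 4 := by
  have hs : 0 < size t mu := by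
    unfold size
    have e1 := abs_nonneg t
    have e2 : 0 ≤ ∑ j, ‖mu j‖ := Finset.sum_nonneg (fun j _ => norm_nonneg _)
    linarith
  have h3 : Y ^ η ≤ l * size t mu ^ (-A) := by
    rw [Real.rpow_neg hs.le, ← div_eq_mul_inv, le_div_iff₀ (Real.rpow_pos_of_pos hs _), mul_comm]
    exact ht.le
  have h4 : Y ^ (4 * η) = (Y ^ η) ^ 4 := by
    rw [← Real.rpow_natCast, ← Real.rpow_mul hY.le]
    congr 1
    push_cast
    ring
  rw [h4]
  exact pow_le_pow_left₀ (Real.rpow_nonneg hY.le _) h3 4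

open Classical in
theorem result
    (h_MOU : Pool.Agent.H34.GU.T_MOU (fun m => ((m : ℝ) - 1) / 2))
    (h_APU : Pool.Agent.H34.GU.T_APU)
    (h_EXT : Pool.Agent.H34.GZ.T_EXT) (h_EXD : Pool.Agent.H34.GZ.T_EXD) :
    ∀ m : ℕ, 1 ≤ m →
    (∃ (T : ℕ → Finset (ZM m)) (D : Set (V m)), IsReps m T ∧ IsDomain m D) ∧
    ∀ ε : ℝ, 0 < ε → ∃ C A : ℝ, 0 < C ∧ 0 < A ∧
      ∀ (T : ℕ → Finset (ZM m)) (D : Set (V m)), IsReps m T → IsDomain m D →
      ∀ (S : ℕ → Type) [∀ N, Fintype (S N)] [∀ N, DecidableEq (S N)]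
        (F : ∀ N : ℕ, S N → Mat m → VecMod m N → ℂ) (lam : ∀ N : ℕ, S N → ℕ → ℂ)
        (mu : ∀ N : ℕ, S N → Fin m → ℂ),
        (∀ (N : ℕ) [NeZero N], 2 ≤ N →
          (∀ i, IsForm m N T (F N i) (lam N i) (mu N i)) ∧ IsOrthonormal D (F N)) →
      ∃ L : ∀ N : ℕ, S N → ℂ → ℂ,
        (∀ N : ℕ, 2 ≤ N → ∀ i, IsLFunction m (lam N i) (L N i)) ∧
        (∀ t : ∀ N : ℕ, S N → ℝ,
          (∀ N : ℕ, 2 ≤ N → ∑ i, (‖L N i (1 / 2 + t N i * Complex.I)‖ *
            size (t N i) (mu N i) ^ (-A)) ^ 4 ≤ C * (N : ℝ) ^ ((m : ℝ) + ε)) ∧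
          ∀ X : ℕ, ∑ N ∈ Finset.Icc 2 X, ∑ i, (‖L N i (1 / 2 + t N i * Complex.I)‖ *
            size (t N i) (mu N i) ^ (-A)) ^ 4 ≤ C * (X : ℝ) ^ ((m : ℝ) + 1 + ε)) ∧
        ∀ η : ℝ,
          (∀ N : ℕ, 2 ≤ N → ((Finset.univ.filter fun i : S N => ∃ t : ℝ,
            size t (mu N i) ^ A * (N : ℝ) ^ η < ‖L N i (1 / 2 + t * Complex.I)‖).card : ℝ) ≤
              C * (N : ℝ) ^ ((m : ℝ) - 4 * η + ε)) ∧
          ∀ X : ℕ, ((∑ N ∈ Finset.Icc 2 X, (Finset.univ.filter fun i : S N => ∃ t : ℝ,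
            size t (mu N i) ^ A * (X : ℝ) ^ η < ‖L N i (1 / 2 + t * Complex.I)‖).card : ℕ) : ℝ) ≤
              C * (X : ℝ) ^ ((m : ℝ) + 1 - 4 * η + ε) := by
  intro m hm1
  refine ⟨?_, ?_⟩
  · obtain ⟨T, hT⟩ := h_EXT m hm1
    obtain ⟨D, hD⟩ := h_EXD m hm1
    exact ⟨T, D, ⟨hT.mem, hT.uniq⟩, ⟨hD.meas, hD.shell, hD.fund⟩⟩
  · intro ε hε
    obtain ⟨C, A, hC, hA, h⟩ := h_MOU m hm1 ε hε
    refine ⟨C, A, hC, hA, ?_⟩
    intro T D hT hD S _ _ F lam mu hF
    have hL : ∀ N, 2 ≤ N → ∃ L : S N → ℂ → ℂ,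
        (∀ i, Pool.Agent.H34.GM.IsL m 1 (lam N i) (L i)) ∧ ∀ t : S N → ℝ,
        ∑ i, (‖L i (1 / 2 + t i * Complex.I)‖ * size (t i) (mu N i) ^ (-A)) ^ 4 ≤
          C * (N : ℝ) ^ ((m : ℝ) + ε) := by
      intro N h2
      have : NeZero N := ⟨by omega⟩
      obtain ⟨hf, ho⟩ := hF N h2
      exact h N T D ⟨hm1, h2, cv_reps hT, cv_dom hD⟩ (S N) (F N) (lam N) (mu N)
        (fun i => cv_form (hf i))
        (fun i j => h_APU m N T (F N i) (lam N i) (mu N i) hm1 (cv_form (hf i)).toEigU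
          (cv_nz hD hm1 ho i) j) ho
    obtain ⟨L, hL1, hL2⟩ : ∃ L : ∀ N : ℕ, S N → ℂ → ℂ,
        (∀ N, 2 ≤ N → ∀ i : S N, Pool.Agent.H34.GM.IsL m 1 (lam N i) (L N i)) ∧
        ∀ N, 2 ≤ N → ∀ t : S N → ℝ,
        ∑ i, (‖L N i (1 / 2 + t i * Complex.I)‖ * size (t i) (mu N i) ^ (-A)) ^ 4 ≤
          C * (N : ℝ) ^ ((m : ℝ) + ε) := by
      refine ⟨fun N => if h : 2 ≤ N then (hL N h).choose else fun _ => 0, ?_, ?_⟩
      · intro N h2 i
        simp only [dif_pos h2]
        exact (hL N h2).choose_spec.1 i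
      · intro N h2 t
        simp only [dif_pos h2]
        exact (hL N h2).choose_spec.2 t
    have hX : ∀ (X : ℕ) (t : ∀ N : ℕ, S N → ℝ), ∑ N ∈ Finset.Icc 2 X, ∑ i,
        (‖L N i (1 / 2 + t N i * Complex.I)‖ * size (t N i) (mu N i) ^ (-A)) ^ 4 ≤
          C * (X : ℝ) ^ ((m : ℝ) + 1 + ε) := by
      intro X t
      have hmp : (0 : ℝ) ≤ m := by positivity
      rcases Nat.eq_zero_or_pos X with h0 | h0
      · rw [h0, Finset.Icc_eq_empty (by omega), Finset.sum_empty]
        positivity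
      have hXp : (0 : ℝ) < X := by exact_mod_cast h0
      calc ∑ N ∈ Finset.Icc 2 X, ∑ i,
          (‖L N i (1 / 2 + t N i * Complex.I)‖ * size (t N i) (mu N i) ^ (-A)) ^ 4 ≤
          ∑ _N ∈ Finset.Icc 2 X, C * (X : ℝ) ^ ((m : ℝ) + ε) := by
            refine Finset.sum_le_sum (fun N hN => (hL2 N (Finset.mem_Icc.1 hN).1 (t N)).trans ?_)
            refine mul_le_mul_of_nonneg_left ?_ hC.le
            refine Real.rpow_le_rpow (by positivity) ?_ (by positivity)
            exact_mod_cast (Finset.mem_Icc.1 hN).2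
        _ = ((Finset.Icc 2 X).card : ℝ) * (C * (X : ℝ) ^ ((m : ℝ) + ε)) := by
            rw [Finset.sum_const, nsmul_eq_mul]
        _ ≤ (X : ℝ) * (C * (X : ℝ) ^ ((m : ℝ) + ε)) := by
            refine mul_le_mul_of_nonneg_right ?_ (by positivity)
            rw [Nat.card_Icc]
            have : X + 1 - 2 ≤ X := by omega
            exact_mod_cast this
        _ = C * (X : ℝ) ^ ((m : ℝ) + 1 + ε) := by
            have e : (X : ℝ) ^ ((m : ℝ) + 1 + ε) = (X : ℝ) * (X : ℝ) ^ ((m : ℝ) + ε) := by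
              rw [show (m : ℝ) + 1 + ε = 1 + ((m : ℝ) + ε) by ring, Real.rpow_add hXp,
                Real.rpow_one]
            rw [e]
            ring
    refine ⟨L, fun N h2 i => cv_l (hL1 N h2 i), fun t => ⟨fun N h2 => hL2 N h2 (t N),
      fun X => hX X t⟩, ?_⟩
    intro η
    -- the points with large values
    have key : ∀ Y : ℝ, 0 < Y → ∃ t : ∀ N : ℕ, S N → ℝ, ∀ (N : ℕ) (i : S N), (∃ t : ℝ,
        size t (mu N i) ^ A * Y ^ η < ‖L N i (1 / 2 + t * Complex.I)‖) → Y ^ (4 * η) ≤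
          (‖L N i (1 / 2 + t N i * Complex.I)‖ * size (t N i) (mu N i) ^ (-A)) ^ 4 := by
      intro Y hY
      refine ⟨fun N i => if h : ∃ t : ℝ, size t (mu N i) ^ A * Y ^ η <
        ‖L N i (1 / 2 + t * Complex.I)‖ then h.choose else 0, ?_⟩
      intro N i hi
      simp only [dif_pos hi]
      exact exc_big (mu N i) A Y η _ _ hY hi.choose_spec
    have hn : ∀ (t : ∀ N : ℕ, S N → ℝ) (N : ℕ) (i : S N),
        0 ≤ (‖L N i (1 / 2 + t N i * Complex.I)‖ * size (t N i) (mu N i) ^ (-A)) ^ 4 :=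
      fun t N i => Even.pow_nonneg (by decide) _
    have hdiv : ∀ (Y x e : ℝ), 0 < Y → x * Y ^ (4 * η) ≤ C * Y ^ e → x ≤ C * Y ^ (e - 4 * η) := by
      intro Y x e hY h1
      rw [sub_eq_add_neg, Real.rpow_add hY, Real.rpow_neg hY.le, ← mul_assoc, ← div_eq_mul_inv,
        le_div_iff₀ (Real.rpow_pos_of_pos hY _)]
      exact h1
    refine ⟨?_, ?_⟩
    · intro N h2
      have hN : (0 : ℝ) < N := by
        have : 0 < N := by omega
        exact_mod_cast this
      obtain ⟨t, ht⟩ := key N hN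
      have h1 := (exc_card (fun i : S N => ∃ t : ℝ,
        size t (mu N i) ^ A * (N : ℝ) ^ η < ‖L N i (1 / 2 + t * Complex.I)‖) _ _
        (hn t N) (ht N)).trans (hL2 N h2 (t N))
      have h3 := hdiv N _ _ hN h1
      rw [show (m : ℝ) - 4 * η + ε = (m : ℝ) + ε - 4 * η by ring]
      exact h3
    · intro X
      rcases Nat.eq_zero_or_pos X with h0 | h0
      · rw [h0, Finset.Icc_eq_empty (by omega), Finset.sum_empty, Nat.cast_zero]
        positivity
      have hXp : (0 : ℝ) < X := by exact_mod_cast h0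
      obtain ⟨t, ht⟩ := key X hXp
      have h1 : ((∑ N ∈ Finset.Icc 2 X, (Finset.univ.filter fun i : S N => ∃ t : ℝ,
          size t (mu N i) ^ A * (X : ℝ) ^ η < ‖L N i (1 / 2 + t * Complex.I)‖).card : ℕ) : ℝ) *
            (X : ℝ) ^ (4 * η) ≤ C * (X : ℝ) ^ ((m : ℝ) + 1 + ε) := by
        refine le_trans ?_ (hX X t)
        rw [Nat.cast_sum, Finset.sum_mul]
        exact Finset.sum_le_sum (fun N _ => exc_card _ _ _ (hn t N) (ht N))
      have h3 := hdiv X _ _ hXp h1
      rw [show (m : ℝ) + 1 - 4 * η + ε = (m : ℝ) + 1 + ε - 4 * η by ring]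
      exact h3

end Pool.Agent.H68.GU.ResDraft
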